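import Pool.Agent.Helper13.CD.Main

/-!
# Equality in the Lichnerowicz spectral gap for CD(K,N) spaces forces maximal diameter

For every metric measure space satisfying the curvature-dimension condition `CD(K,N)` of
Lott-Villani and Sturm (`K > 0`, `1 < N < ∞`; no non-branching or Riemannian assumption), equality
`C_X = (N-1)/(KN)` in the Lichnerowicz spectral gap inequality implies
`diam (supp m) = π √((N-1)/K)`; in particular `diam X = π √((N-1)/K)` when `supp m = X`.

All definitions are in `Pool.Agent.Helper13.CD.Statement`.
-/

open MeasureTheory Set Filter Topology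
open scoped ENNReal NNReal

namespace Pool.Agent.Results.MP_1e189f_gt.EqualityMaxDiam

/-- `(X,d,m)`: complete separable metric space, `m` a nonzero Borel measure, finite on bounded sets.
If it is `CD(K,N)` and `C_X = (N-1)/(KN)`, then the diameter is maximal. -/
theorem result {X : Type*} [MetricSpace X] [CompleteSpace X]
    [TopologicalSpace.SeparableSpace X] [MeasurableSpace X] [BorelSpace X]
    (m : Measure X) (hm : m ≠ 0) (hb : ∀ s : Set X, Bornology.IsBounded s → m s < ⊤)
    (K N : ℝ) (hK : 0 < K) (hN : 1 < N) (hCD : H13CD.CD K N m)
    (hC : H13CD.bestConst m = ENNReal.ofReal ((N - 1) / (K * N))) :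
    Metric.diam m.support = Real.pi * √((N - 1) / K) ∧
      (m.support = univ → Metric.diam (univ : Set X) = Real.pi * √((N - 1) / K)) := by
  have h := H13CD.main m hm hb K N hK hN hCD hC
  exact ⟨h, fun hs => hs ▸ h⟩

end Pool.Agent.Results.MP_1e189f_gt.EqualityMaxDiam
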